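import Mathlib

/-!
# A weighted matrix tree theorem for multigraphs with a set of roots, and the three-edge inequality

`g : E → V × V` is a multigraph, `S` a finite set of edges, `w` real weights, `W` a set of roots.
`Conn g W B`: every nonempty set of vertices without roots is left by an edge of `B`.
`TS g w W S` is the sum over the subsets `B` of `S` with `|B| = |V ∖ W|` and `Conn g W B` of the
product of the weights of `B`.
-/

open Finset Matrix

namespace TDT

variable {V E : Type} [Fintype V] [DecidableEq V] [DecidableEq E]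

/-- Every nonempty set of vertices without roots is left by an edge of `B`. -/
def Conn (g : E → V × V) (W : Finset V) (B : Finset E) : Prop :=
  ∀ U : Finset V, U.Nonempty → Disjoint U W → ∃ e ∈ B, ¬ ((g e).1 ∈ U ↔ (g e).2 ∈ U)

open Classical in
/-- The weighted sum of the spanning trees (forests rooted at `W`) contained in `S`. -/
noncomputable def TS (g : E → V × V) (w : E → ℝ) (W : Finset V) (S : Finset E) : ℝ :=
  ∑ B ∈ S.powerset, if B.card = (Wᶜ).card ∧ Conn g W B then ∏ e ∈ B, w e else 0

/-- The incidence vector of an edge, with the root coordinates put to zero. -/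
def uu (g : E → V × V) (W : Finset V) (e : E) : V → ℝ := fun i =>
  if i ∈ W then 0 else (if i = (g e).1 then 1 else 0) - (if i = (g e).2 then 1 else 0)

/-- The Laplace matrix with the rows and columns of the roots replaced by unit vectors. -/
noncomputable def KM (g : E → V × V) (w : E → ℝ) (W : Finset V) (S : Finset E) : Matrix V V ℝ :=
  fun i j => (if i = j ∧ i ∈ W then 1 else 0) + ∑ e ∈ S, w e * uu g W e i * uu g W e j

theorem KM_symm (g : E → V × V) (w : E → ℝ) (W : Finset V) (S : Finset E) :
    (KM g w W S)ᵀ = KM g w W S := by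
  ext i j
  simp only [transpose_apply, KM]
  congr 1
  · by_cases h : i = j
    · subst h; rfl
    · rw [if_neg (fun hh => h hh.1.symm), if_neg (fun hh => h hh.1)]
  · exact Finset.sum_congr rfl fun e _ => by ring

theorem adj_col (A : Matrix V V ℝ) (y : V) :
    det (updateRow (updateCol A y (Pi.single y 1)) y (Pi.single y 1)) =
      det (updateRow A y (Pi.single y 1)) := by
  rw [← adjugate_apply, ← adjugate_apply]
  have h : ∀ M : Matrix V V ℝ, adjugate M y y = adjugate Mᵀ y y := by
    intro M
    rw [← adjugate_transpose]
    rfl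
  rw [h (updateCol A y (Pi.single y 1)), h A, ← updateRow_transpose, adjugate_apply,
    adjugate_apply]
  congr 1
  ext i j
  by_cases hi : i = y
  · subst hi; simp
  · simp [updateRow_ne hi]

theorem det_step (g : E → V × V) (w : E → ℝ) (W : Finset V) (S : Finset E) (e : E) (he : e ∉ S)
    (x y : V) (hx : x ∈ W) (hy : y ∉ W) (hg : g e = (x, y) ∨ g e = (y, x)) :
    det (KM g w W (insert e S)) = det (KM g w W S) + w e * det (KM g w (insert y W) S) := by
  have hu : ∀ i j, uu g W e i * uu g W e j = if i = y ∧ j = y then 1 else 0 := by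
    have hxy : x ≠ y := fun h => hy (h ▸ hx)
    have h0 : ∀ i, i ≠ y → uu g W e i = 0 := by
      intro i hi
      unfold uu
      by_cases hiW : i ∈ W
      · rw [if_pos hiW]
      · rw [if_neg hiW]
        have hix : i ≠ x := fun h => hiW (h ▸ hx)
        rcases hg with h | h <;> simp [h, hi, hix]
    have h1 : uu g W e y * uu g W e y = 1 := by
      unfold uu
      rw [if_neg hy]
      rcases hg with h | h <;> simp [h, hxy.symm]
    intro i j
    by_cases hi : i = y
    · by_cases hj : j = y
      · subst hi; subst hj
        rw [h1]; simp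
      · rw [h0 j hj]; simp [hj]
    · rw [h0 i hi]; simp [hi]
  have hK : KM g w W (insert e S) = updateRow (KM g w W S) y
      (KM g w W S y + w e • (Pi.single y 1 : V → ℝ)) := by
    ext i j
    by_cases hi : i = y
    · subst hi
      rw [updateRow_self]
      simp only [KM, Pi.add_apply, Pi.smul_apply, smul_eq_mul]
      rw [Finset.sum_insert he, mul_assoc, hu]
      by_cases hj : j = i
      · subst hj
        simp
        ring
      · simp [hj, Pi.single_apply]
    · rw [updateRow_ne hi]
      simp only [KM]
      rw [Finset.sum_insert he, mul_assoc, hu]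
      simp [hi]
  rw [hK, det_updateRow_add, updateRow_eq_self, det_updateRow_smul]
  congr 2
  rw [← adj_col]
  congr 1
  ext i j
  by_cases hi : i = y
  · subst hi
    rw [updateRow_self]
    have h0 : ∀ e, uu g (insert i W) e i = 0 := fun e => by simp [uu]
    simp only [KM, h0]
    by_cases hj : j = i
    · subst hj; simp
    · have hj' : ¬ (i = j ∧ i ∈ insert i W) := fun h => hj h.1.symm
      rw [if_neg hj']
      simp [hj, Pi.single_apply]
  · rw [updateRow_ne hi]
    by_cases hj : j = y
    · subst hj
      have h0 : ∀ e, uu g (insert j W) e j = 0 := fun e => by simp [uu]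
      have hj' : ¬ (i = j ∧ i ∈ insert j W) := fun h => hi h.1
      simp only [KM, h0]
      rw [if_neg hj', updateCol_self]
      simp [hi, Pi.single_apply]
    · rw [updateCol_ne hj]
      simp only [KM]
      have h1 : (i ∈ insert y W) ↔ i ∈ W := by simp [hi]
      have h2 : ∀ e, uu g (insert y W) e i = uu g W e i := fun e => by simp [uu, hi]
      have h3 : ∀ e, uu g (insert y W) e j = uu g W e j := fun e => by simp [uu, hj]
      simp only [h1, h2, h3]

theorem TS_step (g : E → V × V) (w : E → ℝ) (W : Finset V) (S : Finset E) (e : E) (he : e ∉ S)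
    (x y : V) (hx : x ∈ W) (hy : y ∉ W) (hg : g e = (x, y) ∨ g e = (y, x)) :
    TS g w W (insert e S) = TS g w W S + w e * TS g w (insert y W) S := by
  classical
  unfold TS
  rw [Finset.sum_powerset_insert he, Finset.mul_sum]
  congr 1
  refine Finset.sum_congr rfl fun B hB => ?_
  have heB : e ∉ B := fun h => he (Finset.mem_powerset.1 hB h)
  have hc : (Wᶜ).card = ((insert y W)ᶜ).card + 1 := by
    have h1 : Wᶜ = insert y ((insert y W)ᶜ) := by
      ext i
      by_cases hi : i = y
      · subst hi; simp [hy]
      · simp [hi]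
    rw [h1, Finset.card_insert_of_notMem (by simp)]
  have hiff : ((insert e B).card = (Wᶜ).card ∧ Conn g W (insert e B)) ↔
      (B.card = ((insert y W)ᶜ).card ∧ Conn g (insert y W) B) := by
    rw [Finset.card_insert_of_notMem heB, hc]
    refine and_congr (by omega) ⟨fun h U hU hd => ?_, fun h U hU hd => ?_⟩
    · rw [Finset.disjoint_insert_right] at hd
      obtain ⟨f, hf, hf'⟩ := h U hU hd.2
      rcases Finset.mem_insert.1 hf with rfl | hf
      · exfalso
        have hxU : x ∉ U := fun hh => Finset.disjoint_left.1 hd.2 hh hx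
        apply hf'
        rcases hg with h | h <;> rw [h] <;> simp [hxU, hd.1]
      · exact ⟨f, hf, hf'⟩
    · by_cases hyU : y ∈ U
      · refine ⟨e, Finset.mem_insert_self _ _, ?_⟩
        have hxU : x ∉ U := fun hh => Finset.disjoint_left.1 hd hh hx
        rcases hg with h | h <;> rw [h] <;> simp [hxU, hyU]
      · obtain ⟨f, hf, hf'⟩ := h U hU (Finset.disjoint_insert_right.2 ⟨hyU, hd⟩)
        exact ⟨f, Finset.mem_insert_of_mem hf, hf'⟩
  by_cases hB' : B.card = ((insert y W)ᶜ).card ∧ Conn g (insert y W) B
  · rw [if_pos hB', if_pos (hiff.2 hB'), Finset.prod_insert heB]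
  · rw [if_neg hB', if_neg (fun h => hB' (hiff.1 h)), mul_zero]

theorem det_zero (g : E → V × V) (w : E → ℝ) (W : Finset V) (S : Finset E) (hW : W ≠ univ)
    (h : ∀ e ∈ S, ((g e).1 ∈ W ↔ (g e).2 ∈ W)) : det (KM g w W S) = 0 := by
  rw [← exists_mulVec_eq_zero_iff]
  obtain ⟨y, hy⟩ : ∃ y, y ∉ W := by
    by_contra hcon
    push Not at hcon
    exact hW (Finset.eq_univ_iff_forall.2 hcon)
  refine ⟨fun j => if j ∈ W then 0 else 1, fun h0 => ?_, ?_⟩
  · have := congrFun h0 y
    simp [hy] at this
  · ext i
    simp only [mulVec, dotProduct, KM, Pi.zero_apply]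
    have h1 : ∀ j, ((if i = j ∧ i ∈ W then (1 : ℝ) else 0) +
        ∑ e ∈ S, w e * uu g W e i * uu g W e j) * (if j ∈ W then (0 : ℝ) else 1) =
        ∑ e ∈ S, w e * uu g W e i * (uu g W e j * (if j ∈ W then (0 : ℝ) else 1)) := by
      intro j
      rw [add_mul, Finset.sum_mul]
      have : (if i = j ∧ i ∈ W then (1 : ℝ) else 0) * (if j ∈ W then (0 : ℝ) else 1) = 0 := by
        by_cases hj : i = j ∧ i ∈ W
        · obtain ⟨rfl, hj⟩ := hj
          simp [hj]
        · simp [hj]
      rw [this, zero_add]
      exact Finset.sum_congr rfl fun e _ => by ring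
    simp only [h1]
    rw [Finset.sum_comm]
    refine Finset.sum_eq_zero fun e he => ?_
    rw [← Finset.mul_sum]
    have h2 : ∑ j, uu g W e j * (if j ∈ W then (0 : ℝ) else 1) = 0 := by
      set v : V → ℝ := fun j => if j ∈ W then (0 : ℝ) else 1 with hv
      have h3 : ∀ j, uu g W e j * (if j ∈ W then (0 : ℝ) else 1) =
          (if j = (g e).1 then v (g e).1 else 0) - (if j = (g e).2 then v (g e).2 else 0) := by
        intro j
        have k1 : ∀ a, (if j = a then (1 : ℝ) else 0) * v j = if j = a then v a else 0 := by
          intro a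
          by_cases h : j = a
          · subst h; simp
          · simp [h]
        have k2 : uu g W e j * v j =
            ((if j = (g e).1 then (1 : ℝ) else 0) - (if j = (g e).2 then 1 else 0)) * v j := by
          unfold uu
          by_cases hj : j ∈ W
          · simp [hv, hj]
          · rw [if_neg hj]
        change uu g W e j * v j = _
        rw [k2, sub_mul, k1, k1]
      simp only [h3, Finset.sum_sub_distrib, Finset.sum_ite_eq', Finset.mem_univ, if_true]
      have h4 := h e he
      have h5 : v (g e).1 = v (g e).2 := by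
        simp only [hv]
        by_cases h5 : (g e).1 ∈ W
        · rw [if_pos h5, if_pos (h4.1 h5)]
        · rw [if_neg h5, if_neg (fun h6 => h5 (h4.2 h6))]
      rw [h5, sub_self]
    rw [h2, mul_zero]

theorem TS_zero (g : E → V × V) (w : E → ℝ) (W : Finset V) (S : Finset E) (hW : W ≠ univ)
    (h : ∀ e ∈ S, ((g e).1 ∈ W ↔ (g e).2 ∈ W)) : TS g w W S = 0 := by
  classical
  obtain ⟨y, hy⟩ : ∃ y, y ∉ W := by
    by_contra hcon
    push Not at hcon
    exact hW (Finset.eq_univ_iff_forall.2 hcon)
  unfold TS
  refine Finset.sum_eq_zero fun B hB => if_neg ?_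
  rintro ⟨-, hc⟩
  obtain ⟨e, he, hne⟩ := hc (Wᶜ) ⟨y, by simp [hy]⟩ (disjoint_compl_left)
  apply hne
  simp only [Finset.mem_compl]
  exact not_congr (h e (Finset.mem_powerset.1 hB he))

/-- The matrix tree theorem. -/
theorem det_eq_TS (g : E → V × V) (w : E → ℝ) (S : Finset E) (W : Finset V) :
    det (KM g w W S) = TS g w W S := by
  classical
  induction hn : S.card generalizing S W with
  | zero =>
    have hS : S = ∅ := Finset.card_eq_zero.1 hn
    subst hS
    by_cases hW : W = univ
    · subst hW
      have h1 : KM g w univ ∅ = 1 := by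
        ext i j
        simp [KM, Matrix.one_apply]
      rw [h1, det_one]
      unfold TS
      simp only [Finset.powerset_empty, Finset.sum_singleton, Finset.compl_univ,
        Finset.card_empty, Finset.prod_empty, true_and]
      rw [if_pos]
      intro U hU hd
      obtain ⟨i, hi⟩ := hU
      exact absurd (Finset.mem_univ i) (Finset.disjoint_left.1 hd hi)
    · rw [det_zero g w W ∅ hW (by simp), TS_zero g w W ∅ hW (by simp)]
  | succ n ih =>
    by_cases hex : ∃ e ∈ S, ¬ ((g e).1 ∈ W ↔ (g e).2 ∈ W)
    · obtain ⟨e, he, hne⟩ := hex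
      have hS : S = insert e (S.erase e) := (Finset.insert_erase he).symm
      have hcard : (S.erase e).card = n := by rw [Finset.card_erase_of_mem he, hn]; rfl
      obtain ⟨x, y, hx, hy, hg⟩ : ∃ x y, x ∈ W ∧ y ∉ W ∧ (g e = (x, y) ∨ g e = (y, x)) := by
        by_cases h1 : (g e).1 ∈ W
        · exact ⟨(g e).1, (g e).2, h1, fun h2 => hne ⟨fun _ => h2, fun _ => h1⟩, Or.inl rfl⟩
        · by_cases h2 : (g e).2 ∈ W
          · exact ⟨(g e).2, (g e).1, h2, h1, Or.inr rfl⟩
          · exact absurd ⟨fun h => absurd h h1, fun h => absurd h h2⟩ hne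
      rw [hS, det_step g w W _ e (Finset.notMem_erase e S) x y hx hy hg,
        TS_step g w W _ e (Finset.notMem_erase e S) x y hx hy hg, ih _ W hcard,
        ih _ (insert y W) hcard]
    · push Not at hex
      by_cases hW : W = univ
      · subst hW
        have h1 : KM g w univ S = 1 := by
          ext i j
          have h0 : ∀ e i, uu g univ e i = 0 := fun e i => by simp [uu]
          simp [KM, Matrix.one_apply, h0]
        rw [h1, det_one]
        unfold TS
        rw [Finset.sum_eq_single ∅]
        · rw [if_pos]
          · simp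
          · refine ⟨by simp, ?_⟩
            intro U hU hd
            obtain ⟨i, hi⟩ := hU
            exact absurd (Finset.mem_univ i) (Finset.disjoint_left.1 hd hi)
        · intro B _ hB
          rw [if_neg]
          rintro ⟨h2, -⟩
          simp only [Finset.compl_univ, Finset.card_empty, Finset.card_eq_zero] at h2
          exact hB h2
        · intro h2
          exact absurd (Finset.empty_mem_powerset S) h2
      · rw [det_zero g w W S hW hex, TS_zero g w W S hW hex]

end TDT
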